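import Mathlib
import Pool.Agent.Y767.PI.Core

/-!
# Convergence of the canonical products `∏ A_ω(z; z_k)` under a comparison condition on `ω`
-/

set_option autoImplicit false

open Filter Topology MeasureTheory Complex Set
open scoped ComplexConjugate

namespace Pool.Agent.Results.MP_d393fc_an.RatioCondition

open Pool.Agent.Y767.PI

/-- The product converges as the problem asks, in a strong sense: the partial products converge,
uniformly and absolutely on every compact subset of the plane, to an entire function whose zero set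
is exactly `{z_k}`. -/
def CanonicalProductConverges (s : ℤ) (ω : ℝ → ℝ) (zs : ℕ → ℂ) : Prop :=
  ∃ P : ℂ → ℂ, Differentiable ℂ P ∧ (∀ z, P z = 0 ↔ ∃ k, z = zs k) ∧
    ∀ K : Set ℂ, IsCompact K →
      TendstoUniformlyOn (fun N z => ∏ k ∈ Finset.range N, A s ω z (zs k)) P atTop K ∧
      ∃ u : ℕ → ℝ, Summable u ∧ ∀ᶠ k in atTop, ∀ z ∈ K, ‖A s ω z (zs k) - 1‖ ≤ u k

theorem W_zero (s : ℤ) (ω : ℝ → ℝ) (a : ℂ) : W s ω 0 a = (Lfun ω ‖a‖ : ℝ) := by
  unfold W
  have h : ∀ k : ℕ, Wterm s ω 0 a (k + 1) = 0 := by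
    intro k
    unfold Wterm
    simp
  simp [h]

theorem A_zero (s : ℤ) (ω : ℝ → ℝ) (a : ℂ) :
    A s ω 0 a = ((Real.exp (-Lfun ω ‖a‖) : ℝ) : ℂ) := by
  unfold A
  rw [W_zero]
  push_cast
  simp

/-- Necessity of `(∗)`, with no condition on `ω` beyond positivity and finite moments: if the
partial products converge at `z = 0` to a nonzero number, then `∑ L(|z_k|) < ∞`. -/
theorem summable_of_tendsto (s : ℤ) (ω : ℝ → ℝ) (zs : ℕ → ℂ)
    (hL : ∀ k, 0 ≤ Lfun ω ‖zs k‖) {p : ℂ} (hp : p ≠ 0)
    (h : Tendsto (fun N => ∏ k ∈ Finset.range N, A s ω 0 (zs k)) atTop (𝓝 p)) :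
    Summable fun k => Lfun ω ‖zs k‖ := by
  have h1 : ∀ N, ‖∏ k ∈ Finset.range N, A s ω 0 (zs k)‖ =
      Real.exp (-∑ k ∈ Finset.range N, Lfun ω ‖zs k‖) := by
    intro N
    rw [← Finset.sum_neg_distrib, Real.exp_sum, norm_prod]
    apply Finset.prod_congr rfl
    intro k _
    rw [A_zero, Complex.norm_real, Real.norm_of_nonneg (Real.exp_pos _).le]
  have h2 : Tendsto (fun N => Real.exp (-∑ k ∈ Finset.range N, Lfun ω ‖zs k‖)) atTop (𝓝 ‖p‖) := by
    have := h.norm
    simp only [h1] at this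
    exact this
  by_contra hns
  have h3 : Tendsto (fun N => ∑ k ∈ Finset.range N, Lfun ω ‖zs k‖) atTop atTop :=
    (not_summable_iff_tendsto_nat_atTop_of_nonneg hL).mp hns
  have h4 : Tendsto (fun N => Real.exp (-∑ k ∈ Finset.range N, Lfun ω ‖zs k‖)) atTop (𝓝 0) :=
    Real.tendsto_exp_neg_atTop_nhds_zero.comp h3
  have h5 := tendsto_nhds_unique h2 h4
  exact hp (norm_eq_zero.mp h5)

/-- Sufficiency. -/
theorem converges {s : ℤ} (hs : s = -1 ∨ s = 1) (ω : ℝ → ℝ)
    (hcont : ContinuousOn ω (Set.Ici 0)) (hanti : AntitoneOn ω (Set.Ici 0))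
    (hpos : ∀ t, 0 ≤ t → 0 < ω t)
    (hmom : ∀ k : ℕ, 1 ≤ k → IntegrableOn (fun t => ω t * t ^ (k - 1)) (Set.Ioi 0))
    {t₀ C : ℝ} (ht₀ : 0 ≤ t₀) (hC : RatioBound ω t₀ C)
    (zs : ℕ → ℂ) (hz0 : ∀ k, zs k ≠ 0) (hsum : Summable fun k => Lfun ω ‖zs k‖) :
    CanonicalProductConverges s ω zs := by
  have hlarge : ∀ l : ℝ, 0 < l → ∀ᶠ k in atTop, l ≤ ‖zs k‖ := by
    intro l hl
    have h1 := hsum.tendsto_atTop_zero
    filter_upwards [h1.eventually_lt_const (Lfun_pos hcont hpos hmom hl)] with k hk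
    by_contra hcon
    push Not at hcon
    have := Lfun_anti hcont hpos hmom (norm_pos_iff.mpr (hz0 k)) hcon.le
    linarith
  have hbound : ∀ K : Set ℂ, IsCompact K →
      ∃ u : ℕ → ℝ, Summable u ∧ ∀ᶠ k in atTop, ∀ z ∈ K, ‖A s ω z (zs k) - 1‖ ≤ u k := by
    intro K hK
    obtain ⟨R0, hR0⟩ := hK.isBounded.exists_norm_le
    set R := max R0 0 with hR
    have hRnn : 0 ≤ R := le_max_right _ _
    set l := max (t₀ + 1) (2 * R) + 1 with hl
    have hl1 : t₀ < l := by
      have := le_max_left (t₀ + 1) (2 * R)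
      linarith
    have hl2 : 2 * R ≤ l := by
      have := le_max_right (t₀ + 1) (2 * R)
      linarith
    have hl3 : 1 ≤ l := by
      have := le_max_left (t₀ + 1) (2 * R)
      linarith
    refine ⟨fun k => 2 * ((1 + 2 * C ^ 2 / ω l) * Lfun ω ‖zs k‖),
      (hsum.mul_left _).mul_left _, ?_⟩
    have h1 : Tendsto (fun k => (1 + 2 * C ^ 2 / ω l) * Lfun ω ‖zs k‖) atTop (𝓝 0) := by
      simpa using hsum.tendsto_atTop_zero.const_mul (1 + 2 * C ^ 2 / ω l)
    filter_upwards [hlarge l (by linarith), h1.eventually_le_const one_pos] with k hk1 hk2 z hz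
    exact A_bound hs hcont hanti hpos hmom ht₀ hC hRnn hl1 hl3 hl2 z (zs k)
      ((hR0 z hz).trans (le_max_left _ _)) hk1 hk2
  have hAdiff : ∀ k, Differentiable ℂ (fun z => A s ω z (zs k)) := fun k =>
    A_differentiable hs hcont hanti hpos hmom (hz0 k)
  have hunif : ∀ K : Set ℂ, IsCompact K →
      HasProdUniformlyOn (fun k z => 1 + (A s ω z (zs k) - 1))
        (fun z => ∏' k, (1 + (A s ω z (zs k) - 1))) K := by
    intro K hK
    obtain ⟨u, hu, hb⟩ := hbound K hK
    exact Summable.hasProdUniformlyOn_nat_one_add hK hu hb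
      (fun n => ((hAdiff n).continuous.sub continuous_const).continuousOn)
  set P : ℂ → ℂ := fun z => ∏' k, (1 + (A s ω z (zs k) - 1)) with hP
  have hsingle : ∀ z : ℂ, Summable (fun k => ‖A s ω z (zs k) - 1‖) := by
    intro z
    obtain ⟨u, hu, hb⟩ := hbound {z} isCompact_singleton
    refine summable_of_isBigO_nat hu (Asymptotics.IsBigO.of_bound 1 ?_)
    filter_upwards [hb] with k hk
    rw [norm_norm, one_mul]
    exact (hk z rfl).trans (le_abs_self _)
  refine ⟨P, ?_, ?_, ?_⟩
  · have key : TendstoLocallyUniformlyOn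
        (fun (s' : Finset ℕ) z => ∏ k ∈ s', (1 + (A s ω z (zs k) - 1))) P atTop Set.univ := by
      have h : HasProdLocallyUniformlyOn (fun k z => 1 + (A s ω z (zs k) - 1)) P Set.univ := by
        apply hasProdLocallyUniformlyOn_of_forall_compact isOpen_univ
        intro K _ hK
        exact hunif K hK
      exact hasProdLocallyUniformlyOn_iff_tendstoLocallyUniformlyOn.mp h
    have h2 := key.differentiableOn (Eventually.of_forall ?_) isOpen_univ
    · exact differentiableOn_univ.mp h2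
    · intro s'
      refine Differentiable.differentiableOn ?_
      apply Differentiable.fun_finsetProd
      intro k _
      exact ((hAdiff k).sub_const 1).const_add 1
  · intro z
    constructor
    · intro h0
      by_contra hcon
      push Not at hcon
      have hne : ∀ k, 1 + (A s ω z (zs k) - 1) ≠ 0 := by
        intro k
        have : 1 + (A s ω z (zs k) - 1) = A s ω z (zs k) := by ring
        rw [this]
        unfold A
        apply mul_ne_zero _ (Complex.exp_ne_zero _)
        intro h1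
        apply hcon k
        have h2 : z / zs k = 1 := (sub_eq_zero.mp h1).symm
        exact (div_eq_one_iff_eq (hz0 k)).mp h2
      exact tprod_one_add_ne_zero_of_summable hne (hsingle z) h0
    · rintro ⟨j, rfl⟩
      have h1 : HasProd (fun k => 1 + (A s ω (zs j) (zs k) - 1)) (P (zs j)) :=
        (multipliable_one_add_of_summable (hsingle (zs j))).hasProd
      have h2 := h1.tendsto_prod_nat
      refine tendsto_nhds_unique h2 ?_
      apply tendsto_const_nhds.congr'
      filter_upwards [eventually_gt_atTop j] with N hN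
      symm
      apply Finset.prod_eq_zero (Finset.mem_range.mpr hN)
      unfold A
      rw [div_self (hz0 j)]
      simp
  · intro K hK
    refine ⟨?_, hbound K hK⟩
    have h1 := (hunif K hK).tendstoUniformlyOn_finsetRange
    refine h1.congr (Eventually.of_forall ?_)
    intro N z _
    simp

/-- **Convergence of `∏ A_ω(z; z_k)`.** Let `ω` be continuous, positive and nonincreasing on
`[0, ∞)` with all moments finite, and suppose `ω(bx) ω(a) ≤ C ω(b) ω(ax)` for all `t₀ < a ≤ b` and
`x ≥ 1`, with some constants `t₀ ≥ 0` and `C`. Let `z_k ≠ 0`, in any order. Both for the factor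
`A_ω(z; a)` in which `J_k(|a|)` carries `(conj a)^{-k}` (`s = -1`, the problem's) and for the one in
which it carries `(conj a)^k` (`s = 1`), the series defining `W_ω(z; a)` converges absolutely, and
the following are equivalent: `∑ L(|z_k|) < ∞`; the product `∏ A_ω(z; z_k)` converges uniformly and
absolutely on every compact set to an entire function whose zero set is exactly `{z_k}`; the partial
products converge at the single point `z = 0` to a nonzero number.

The condition with `C = 1` follows from the problem's condition that `t ω'(t)/ω(t)` exists and is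
nonincreasing, needed only for `t > t₀`; and it passes, with constant `C c ^ 4`, from a weight `ω`
to every weight `ω'` with `ω ≤ c ω'` and `ω' ≤ c ω` beyond `t₀`. -/
theorem result :
    (∀ (s : ℤ), s = -1 ∨ s = 1 → ∀ ω : ℝ → ℝ,
      ContinuousOn ω (Set.Ici 0) → AntitoneOn ω (Set.Ici 0) → (∀ t, 0 ≤ t → 0 < ω t) →
      (∀ k : ℕ, 1 ≤ k → IntegrableOn (fun t => ω t * t ^ (k - 1)) (Set.Ioi 0)) →
      ∀ t₀ C : ℝ, 0 ≤ t₀ → RatioBound ω t₀ C →
      (∀ a : ℂ, a ≠ 0 → ∀ z : ℂ, Summable (fun k : ℕ => ‖Wterm s ω z a (k + 1)‖)) ∧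
      ∀ zs : ℕ → ℂ, (∀ k, zs k ≠ 0) →
        ((Summable fun k => Lfun ω ‖zs k‖) ↔ CanonicalProductConverges s ω zs) ∧
        ((Summable fun k => Lfun ω ‖zs k‖) ↔
          ∃ p : ℂ, p ≠ 0 ∧
            Tendsto (fun N => ∏ k ∈ Finset.range N, A s ω 0 (zs k)) atTop (𝓝 p))) ∧
    (∀ (ω : ℝ → ℝ) (t₀ : ℝ), 0 ≤ t₀ → (∀ t, 0 ≤ t → 0 < ω t) →
      (∀ t, t₀ < t → DifferentiableAt ℝ ω t) →
      AntitoneOn (fun t => t * deriv ω t / ω t) (Set.Ioi t₀) → RatioBound ω t₀ 1) ∧
    (∀ (ω ω' : ℝ → ℝ) (t₀ C c : ℝ), 0 ≤ t₀ → (∀ t, 0 ≤ t → 0 < ω t) → (∀ t, 0 ≤ t → 0 < ω' t) →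
      RatioBound ω t₀ C → (∀ t, t₀ < t → ω t ≤ c * ω' t ∧ ω' t ≤ c * ω t) →
      RatioBound ω' t₀ (C * c ^ 4)) := by
  refine ⟨?_, ?_, ?_⟩
  · intro s hs ω hcont hanti hpos hmom t₀ C ht₀ hC
    refine ⟨fun a ha z => Wterm_summable hs hcont hanti hpos hmom ha z, fun zs hz0 => ?_⟩
    have hLpos : ∀ k, 0 ≤ Lfun ω ‖zs k‖ := fun k =>
      (Lfun_pos hcont hpos hmom (norm_pos_iff.mpr (hz0 k))).le
    have himp1 : (Summable fun k => Lfun ω ‖zs k‖) → CanonicalProductConverges s ω zs :=
      fun h => converges hs ω hcont hanti hpos hmom ht₀ hC zs hz0 h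
    have himp2 : CanonicalProductConverges s ω zs →
        ∃ p : ℂ, p ≠ 0 ∧
          Tendsto (fun N => ∏ k ∈ Finset.range N, A s ω 0 (zs k)) atTop (𝓝 p) := by
      rintro ⟨P, -, hzero, hK⟩
      refine ⟨P 0, ?_, ?_⟩
      · intro h0
        obtain ⟨k, hk⟩ := (hzero 0).mp h0
        exact hz0 k hk.symm
      · exact ((hK {0} isCompact_singleton).1).tendsto_at (Set.mem_singleton 0)
    have himp3 : (∃ p : ℂ, p ≠ 0 ∧
          Tendsto (fun N => ∏ k ∈ Finset.range N, A s ω 0 (zs k)) atTop (𝓝 p)) →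
        (Summable fun k => Lfun ω ‖zs k‖) := by
      rintro ⟨p, hp, h⟩
      exact summable_of_tendsto s ω zs hLpos hp h
    exact ⟨⟨himp1, fun h => himp3 (himp2 h)⟩, ⟨fun h => himp2 (himp1 h), himp3⟩⟩
  · intro ω t₀ ht₀ hpos hdiff hmono a b x ha hab hx
    rw [one_mul]
    exact compare hpos ht₀ hdiff hmono ha hab hx
  · intro ω ω' t₀ C c ht₀ hpos hpos' hC hc a b x ha hab hx
    have ha0 : 0 < a := lt_of_le_of_lt ht₀ ha
    have hb0 : 0 < b := lt_of_lt_of_le ha0 hab
    have hax : a ≤ a * x := by nlinarith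
    have hbx : b ≤ b * x := by nlinarith
    have h1 := hC a b x ha hab hx
    have hCpos : 0 < C := lt_of_lt_of_le one_pos (hC.one_le hpos ht₀)
    have hcpos : 0 < c := by
      have h2 := (hc a ha).1
      have h3 := hpos a ha0.le
      have h4 := hpos' a ha0.le
      by_contra hcon
      push Not at hcon
      nlinarith
    have e1 := (hc (b * x) (by linarith)).2
    have e2 := (hc a ha).2
    have e3 := (hc b (by linarith)).1
    have e4 := (hc (a * x) (by linarith)).1
    have p1 := hpos (b * x) (by positivity)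
    have p2 := hpos a ha0.le
    have p3 := hpos b hb0.le
    have p4 := hpos (a * x) (by positivity)
    have q1 := hpos' (b * x) (by positivity)
    have q2 := hpos' a ha0.le
    have q3 := hpos' b hb0.le
    have q4 := hpos' (a * x) (by positivity)
    calc ω' (b * x) * ω' a ≤ (c * ω (b * x)) * (c * ω a) :=
          mul_le_mul e1 e2 q2.le (by positivity)
      _ = c ^ 2 * (ω (b * x) * ω a) := by ring
      _ ≤ c ^ 2 * (C * (ω b * ω (a * x))) := mul_le_mul_of_nonneg_left h1 (by positivity)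
      _ ≤ c ^ 2 * (C * ((c * ω' b) * (c * ω' (a * x)))) := by
          apply mul_le_mul_of_nonneg_left _ (by positivity)
          apply mul_le_mul_of_nonneg_left _ hCpos.le
          exact mul_le_mul e3 e4 p4.le (by positivity)
      _ = C * c ^ 4 * (ω' b * ω' (a * x)) := by ring

end Pool.Agent.Results.MP_d393fc_an.RatioCondition
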